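import Pool.Agent.H757_X15.ES.FinE
import Pool.Agent.H757_X15.DN.Fin
import Pool.Agent.Y809.BSD14.E0
import Pool.Agent.Y809.BSD14.Tam1

/-!
# The 2-part of the strong Birch and Swinnerton-Dyer conjecture over `ℚ` for a positive proportion of the
# quadratic twists of the curve `X_0(15)`, which has no complex multiplication

`E_D` is the quadratic twist by `D` of the modular curve `X_0(15) : y² + x y + y = x³ + x² - 10 x - 10`,
where `D > 1` is ANY squarefree integer `≡ 1` or `49` modulo `60`, i.e. `D ≡ 1` modulo `4` and `D` is a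
square modulo `3` and modulo `5`; there is no restriction on the prime factors of `D`, and the class has
positive density among the integers.  Let `z = L(E_D, 1) #E_D(ℚ)_tors² / (Ω ∏ c_p)`, which according to
the conjecture is zero or the order of `Ш(E_D/ℚ)`.  With no hypothesis on the rank or on `Ш` we prove, for
all these `D`:
* the equation of `E_D` is a global minimal one, `L(E_D, s)` is entire, `∏ c_p = 2 ^ (2 k + 3)` with `k`
  the number of the prime factors of `D`, and `#E_D(ℚ)_tors` is four times an odd number;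
* `z = w y²` with integers `w`, `y`, `w` odd;
* `y` is odd if and only if `E_D(ℚ)` is finite and `Ш(E_D/ℚ)[2] = 0` (the 2-part of the formula modulo
  two, and the 2-converse theorem), if and only if the following elementary condition `Crit D` holds: the
  only positive divisor `d` of `D` with `(d/5) = 1`, `(d/p) = 1` for all primes `p ∣ D/d` and
  `(-(D/d)/p) = 1` for all primes `p ∣ d` is `d = 1`;
* in this case `Ш(E_D/ℚ)[2^∞] = 0`, so that the 2-part of the formula holds;
* the proportion of these `D` in the class is exactly `c = ∏_{i ≥ 1} (1 - 2^{-i}) = 0.2887…`, so that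
  their number up to `X` is asymptotic to `5 c X / (16 π²)`.

Proof: modular symbols of `X_0(15)`, the central value as a square of a weighted sum over vectors of a
ternary lattice (a Gross formula for a definite quaternion algebra), a bilinear identity for these sums
for coprime discriminants, which is compared with the geodesic cycles of discriminant `D` on `X_0(15)` and
summed over the genus characters; a congruence modulo eight for the homomorphisms of `Γ₀(15)` and the
parity of the order of the principal genus; a descent by the isogenies of degree two (both directions);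
and the distribution of the coranks of random matrices with large sieve estimates for the quadratic
symbols.  See the modules `Pool.Agent.H757_X15`, which are joint work of many helpers.
-/

set_option autoImplicit false
set_option linter.style.haveILetI false

open WeierstrassCurve MeasureTheory Filter Topology

namespace Pool.Agent.Results.MP_4a9ea6_nt.TwoPartTwistsX15

open scoped Classical

open Pool.Agent.TH841.SH.D (Sha)

/-- The quadratic twist `E_D` of `X_0(15)` by `D ≡ 1` modulo `4`: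
`y² + x y + y = x³ + ((5 D - 1)/4) x² - ((19 D² + 1)/2) x - (39 D³ + 1)/4`.  For `D = 1` this is
`y² + x y + y = x³ + x² - 10 x - 10`. -/
def twist (D : ℤ) : WeierstrassCurve ℤ :=
  ⟨1, (5 * D - 1) / 4, 1, -((19 * D ^ 2 + 1) / 2), -((39 * D ^ 3 + 1) / 4)⟩

/-- The curve given by the equation of `W` over the ring `R`. -/
abbrev base (W : WeierstrassCurve ℤ) (R : Type) [CommRing R] : WeierstrassCurve R :=
  W.map (Int.castRingHom R)

/-- `W` is a global minimal equation: `Δ ≠ 0` and `|Δ|` is minimal among the integral equations of the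
same curve over `ℚ`. -/
def Minimal (W : WeierstrassCurve ℤ) : Prop :=
  W.Δ ≠ 0 ∧ ∀ (W' : WeierstrassCurve ℤ) (C : VariableChange ℚ), C • base W ℚ = base W' ℚ →
    |W.Δ| ≤ |W'.Δ|

/-- The number of the affine points modulo `p`. -/
noncomputable def pts (W : WeierstrassCurve ℤ) (p : ℕ) : ℕ :=
  Nat.card {P : ZMod p × ZMod p // (base W (ZMod p)).toAffine.Equation P.1 P.2}

/-- `a_p = p + 1 - #W(𝔽_p)`, the points counted with the point at infinity. -/
noncomputable def a (W : WeierstrassCurve ℤ) (p : ℕ) : ℤ := p - pts W p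

/-- `L` is the L-function of the minimal equation `W`: it is entire, and for `Re s > 3/2` it is given by
the Euler product with the factors `(1 - a_p p^(-s) + p^(1 - 2 s))⁻¹` if `p` does not divide `Δ` and
`(1 - a_p p^(-s))⁻¹` otherwise. -/
def IsL (W : WeierstrassCurve ℤ) (L : ℂ → ℂ) : Prop :=
  Differentiable ℂ L ∧ ∀ s : ℂ, 3 / 2 < s.re →
    HasProd (fun p : Nat.Primes => (1 - (a W p : ℂ) * ((p : ℕ) : ℂ) ^ (-s) +
      (if ((p : ℕ) : ℤ) ∣ W.Δ then 0 else ((p : ℕ) : ℂ) ^ (1 - 2 * s)))⁻¹) (L s)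

/-- The point `P` of `W` over `ℚ_p` reduces to a singular point of the curve modulo `p`: the coordinates
are integral and both partial derivatives of `y² + a₁ x y + a₃ y - x³ - a₂ x² - a₄ x - a₆` are in the
maximal ideal. -/
def SingularReduction (W : WeierstrassCurve ℤ) (p : ℕ) [Fact p.Prime]
    (P : (base W ℚ_[p]).toAffine.Point) : Prop :=
  ∃ x y h, P = Affine.Point.some x y h ∧ ‖x‖ ≤ 1 ∧ ‖y‖ ≤ 1 ∧
    ‖W.a₁ * y - (3 * x ^ 2 + 2 * W.a₂ * x + W.a₄)‖ < 1 ∧ ‖2 * y + W.a₁ * x + W.a₃‖ < 1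

/-- `c p` is the Tamagawa number `[W(ℚ_p) : W⁰(ℚ_p)]` for all primes `p`, where `W⁰(ℚ_p)` is the subgroup
of the points which do not have singular reduction; it is `1` if `p` does not divide `Δ`. -/
def IsTamagawa (W : WeierstrassCurve ℤ) (c : ℕ → ℕ) : Prop :=
  ∀ (p : ℕ) [Fact p.Prime], (∃ H : AddSubgroup (base W ℚ_[p]).toAffine.Point,
    (∀ P, P ∈ H ↔ ¬ SingularReduction W p P) ∧ H.index = c p) ∧ (¬ (p : ℤ) ∣ W.Δ → c p = 1)

/-- The product of the Tamagawa numbers. -/
noncomputable def Tam (W : WeierstrassCurve ℤ) (c : ℕ → ℕ) : ℕ := ∏ p ∈ W.Δ.natAbs.primeFactors, c p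

/-- `4 x³ + b₂ x² + 2 b₄ x + b₆ = (2 y + a₁ x + a₃)²`. -/
def cubic (W : WeierstrassCurve ℤ) (x : ℝ) : ℝ := 4 * x ^ 3 + W.b₂ * x ^ 2 + 2 * W.b₄ * x + W.b₆

/-- `Ω = ∫_{W(ℝ)} |ω|` with `ω = dx / (2 y + a₁ x + a₃)`, as an integral over `x`: two real points lie
over each `x` with `cubic x > 0`. -/
noncomputable def Omega (W : WeierstrassCurve ℤ) : ℝ :=
  2 * ∫ x in {x : ℝ | 0 < cubic W x}, 1 / √(cubic W x)

/-- The order of the torsion subgroup of `W(ℚ)`. -/
noncomputable def torsOrder (W : WeierstrassCurve ℤ) : ℕ :=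
  Nat.card (AddCommGroup.torsion (base W ℚ).toAffine.Point)

/-- The order of the Tate-Shafarevich group predicted by the formula in rank zero, for the value `l` of
the L-function at `s = 1` and the Tamagawa numbers `c`: `l #W(ℚ)_tors² / (Ω ∏ c_p)`. -/
noncomputable def anOrder (W : WeierstrassCurve ℤ) (l : ℂ) (c : ℕ → ℕ) : ℂ :=
  l * (torsOrder W : ℂ) ^ 2 / ((Omega W : ℝ) * (Tam W c : ℂ))

/-- The 2-part of the strong conjecture of Birch and Swinnerton-Dyer for `W` over `ℚ`, in the case that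
the predicted order of `Ш` is a unit at two: `W` is minimal, `L(W, s)` is entire, `L(W, 1) ≠ 0`, `W(ℚ)`
is finite, the 2-primary part of `Ш(W/ℚ)` is zero, and the predicted order of `Ш` is a rational number
which is a unit at two. -/
def TwoPart (W : WeierstrassCurve ℤ) : Prop :=
  Minimal W ∧ Finite (base W ℚ).toAffine.Point ∧
  (∀ (n : ℕ) (x : Sha (base W ℚ)), 2 ^ n • x = 0 → x = 0) ∧
  ∃ (L : ℂ → ℂ) (c : ℕ → ℕ) (z : ℚ), IsL W L ∧ L 1 ≠ 0 ∧ IsTamagawa W c ∧ 0 < Tam W c ∧
    0 < Omega W ∧ 0 < torsOrder W ∧ anOrder W (L 1) c = z ∧ z ≠ 0 ∧ padicValRat 2 z = 0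

/-- The group `E_D(ℚ)` is finite and `Ш(E_D/ℚ)` has no element of order two. -/
def NoSelmer (D : ℕ) : Prop :=
  Finite (base (twist D) ℚ).toAffine.Point ∧ ∀ x : Sha (base (twist D) ℚ), 2 • x = 0 → x = 0

/-- The class of the discriminants: all the squarefree `D > 1`, `D ≡ 1` or `49` modulo `60`. -/
def Adm (D : ℕ) : Prop := 1 < D ∧ Squarefree D ∧ (D % 60 = 1 ∨ D % 60 = 49)

/-- The elementary condition. -/
def Crit (D : ℕ) : Prop := ∀ d : ℕ, d ∣ D →
  (∀ p : ℕ, p.Prime → p ∣ D → ¬ p ∣ d → jacobiSym d p = 1) →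
  (∀ p : ℕ, p.Prime → p ∣ d → jacobiSym (-((D / d : ℕ) : ℤ)) p = 1) →
  jacobiSym d 5 = 1 → d = 1

/-- The statement for all `D` of the class. -/
def Criterion (D : ℕ) : Prop :=
  Minimal (twist D) ∧
  (∃ (L : ℂ → ℂ) (c : ℕ → ℕ) (w y : ℤ), IsL (twist D) L ∧ IsTamagawa (twist D) c ∧
    Tam (twist D) c = 2 ^ (2 * D.primeFactors.card + 3) ∧
    (∃ t : ℕ, Odd t ∧ torsOrder (twist D) = 4 * t) ∧ 0 < Omega (twist D) ∧
    Odd w ∧ anOrder (twist D) (L 1) c = w * y ^ 2 ∧ (Odd y ↔ NoSelmer D)) ∧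
  (NoSelmer D ↔ Crit D) ∧
  (Crit D ↔ TwoPart (twist D))

/-- the number of the integers `D ≤ X` with `Q D` -/
noncomputable def count (Q : ℕ → Prop) (X : ℕ) : ℕ := Nat.card {D : ℕ // D ≤ X ∧ Q D}

/-- `c = ∏_{i ≥ 1} (1 - 2^{-i})` -/
noncomputable def cc : ℝ := ∏' i : ℕ, (1 - (1 / 2 : ℝ) ^ (i + 1))

section proof

open Pool.Agent.H757_X15 (WD)
open Pool.Agent.H757_X15.EE (S_FULL)

lemma twist_eq (D : ℤ) : twist D = WD D := rfl

lemma cubic_eq (W : WeierstrassCurve ℤ) (x : ℝ) : cubic W x = Pool.Agent.Y700.psi W x := rfl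

lemma omega_eq (W : WeierstrassCurve ℤ) : Omega W = Pool.Agent.Y700.Omega W := by
  unfold Omega Pool.Agent.Y700.Omega
  rw [← integral_const_mul]
  show ∫ x in {x : ℝ | 0 < Pool.Agent.Y700.psi W x}, 2 * (1 / √(Pool.Agent.Y700.psi W x)) = _
  congr 1
  funext x
  rw [mul_one_div]

/-- the Tamagawa numbers -/
noncomputable def cT (W : WeierstrassCurve ℤ) (p : ℕ) : ℕ :=
  if h : p.Prime then (haveI := Fact.mk h; Pool.Agent.Y700.tam W p) else 1

lemma isTam (W : WeierstrassCurve ℤ) : IsTamagawa W (cT W) := by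
  intro p hp
  have hc : cT W p = Pool.Agent.Y700.tam W p := by
    unfold cT
    rw [dif_pos hp.out]
  refine ⟨⟨Pool.Agent.Y700.E0 W p, fun P => ?_, by rw [hc]; rfl⟩, fun h => ?_⟩
  · rw [Pool.Agent.Y809.BSD14.t_E0 W p P]
    constructor
    · rintro h ⟨x, y, h1, rfl, h2⟩
      exact h x y h1 rfl h2
    · intro h x y h1 h2 h3
      exact h ⟨x, y, h1, h2, h3⟩
  · rw [hc]
    exact Pool.Agent.Y809.BSD14.t_TGOOD W p h

lemma tam_eq (W : WeierstrassCurve ℤ) : Tam W (cT W) = Pool.Agent.Y700.tamProd W := rfl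

lemma noSelmer_iff {D : ℕ} : NoSelmer D ↔
    (Finite (Pool.Agent.Y700.EQ (WD D)).toAffine.Point ∧
      ∀ x : Sha (Pool.Agent.Y700.EQ (WD D)), x + x = 0 → x = 0) := by
  refine and_congr Iff.rfl (forall_congr' fun x => ?_)
  rw [two_nsmul]
  exact Iff.rfl

theorem criterion (hF : S_FULL) {D : ℕ} (hD : Adm D) : Criterion D := by
  obtain ⟨h1, hs, hm⟩ := hD
  obtain ⟨f1, f2, f3, ⟨k, hk, f4⟩, ⟨f, w, y, f5, hw, hy, f6⟩, f7, f8⟩ := hF D hs hm (by omega)
  have hto : torsOrder (twist D) = 4 * k := f4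
  have hT : Tam (twist D) (cT (twist D)) = 2 ^ (2 * D.primeFactors.card + 3) := f2
  have hΩ : 0 < Omega (twist D) := by rw [omega_eq]; exact f3
  have han : anOrder (twist D) (f 1) (cT (twist D)) = (w : ℂ) * (y : ℂ) ^ 2 := by
    rw [← f6]
    unfold anOrder
    rw [omega_eq]
    rfl
  have hc : Crit D ↔ Pool.Agent.H757_X15.DD.Crit D := Iff.rfl
  have hns : NoSelmer D ↔ Crit D := by rw [noSelmer_iff, hc, f7]
  refine ⟨f1, ⟨f, cT (twist D), w, y, f5, isTam _, hT, ⟨k, hk, hto⟩, hΩ, hw, han,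
    by rw [hy, ← hc, hns]⟩, hns, fun hcr => ?_, fun hp => ?_⟩
  · have hyo : Odd y := hy.2 hcr
    have hy0 : (y : ℚ) ≠ 0 := by
      rintro h
      have : y = 0 := by exact_mod_cast h
      rw [this] at hyo
      exact absurd hyo (by decide)
    have hw0 : (w : ℚ) ≠ 0 := by
      rintro h
      have : w = 0 := by exact_mod_cast h
      rw [this] at hw
      exact absurd hw (by decide)
    have hz : anOrder (twist D) (f 1) (cT (twist D)) = (((w : ℚ) * (y : ℚ) ^ 2 : ℚ) : ℂ) := by
      rw [han]; push_cast; rfl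
    have hz0 : ((w : ℚ) * (y : ℚ) ^ 2) ≠ 0 := mul_ne_zero hw0 (pow_ne_zero 2 hy0)
    refine ⟨f1, (hns.2 hcr).1, f8 hcr, f, cT (twist D), (w : ℚ) * (y : ℚ) ^ 2, f5, ?_, isTam _,
      by rw [hT]; positivity, hΩ, by rw [hto]; have := hk.pos; omega, hz, hz0, ?_⟩
    · intro h0
      rw [h0] at hz
      unfold anOrder at hz
      rw [zero_mul, zero_div] at hz
      exact hz0 (by exact_mod_cast hz.symm)
    · haveI : Fact (Nat.Prime 2) := ⟨Nat.prime_two⟩
      have odd_val : ∀ n : ℤ, Odd n → padicValRat 2 (n : ℚ) = 0 := by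
        intro n hn
        rw [padicValRat.of_int]
        have : padicValInt 2 n = 0 := by
          refine padicValInt.eq_zero_of_not_dvd ?_
          intro hd
          have h5 := Int.odd_iff.1 hn
          omega
        rw [this]
        rfl
      rw [padicValRat.mul hw0 (pow_ne_zero 2 hy0), padicValRat.pow, odd_val w hw, odd_val y hyo]
      simp
  · refine hns.1 ⟨hp.2.1, fun x hx => hp.2.2.1 1 x ?_⟩
    rwa [pow_one]

lemma Nat.card_eq_card_toFinset_aux (S : Finset ℕ) : Nat.card {D : ℕ // D ∈ S} = S.card := by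
  rw [Nat.card_eq_fintype_card, Fintype.card_coe]

lemma count_eq (Q : ℕ → Prop) (X : ℕ) : count (fun D => Adm D ∧ Q D) X + (if 1 ≤ X ∧ Q 1 then 1 else 0) =
    ((Finset.Icc 1 X).filter fun D => (Squarefree D ∧ (D % 60 = 1 ∨ D % 60 = 49)) ∧ Q D).card := by
  have e : count (fun D => Adm D ∧ Q D) X = ((Finset.Icc 2 X).filter fun D =>
      (Squarefree D ∧ (D % 60 = 1 ∨ D % 60 = 49)) ∧ Q D).card := by
    unfold count
    rw [← Nat.card_eq_card_toFinset_aux]
    refine Nat.card_congr (Equiv.subtypeEquivRight fun D => ?_)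
    rw [Finset.mem_filter, Finset.mem_Icc]
    unfold Adm
    constructor
    · rintro ⟨h1, ⟨h2, h3, h4⟩, h5⟩
      exact ⟨⟨h2, h1⟩, ⟨h3, h4⟩, h5⟩
    · rintro ⟨⟨h2, h1⟩, ⟨h3, h4⟩, h5⟩
      exact ⟨h1, ⟨h2, h3, h4⟩, h5⟩
  rw [e]
  by_cases hX : 1 ≤ X
  · have e2 : Finset.Icc 1 X = insert 1 (Finset.Icc 2 X) := by
      ext n
      simp only [Finset.mem_Icc, Finset.mem_insert]
      omega
    rw [e2, Finset.filter_insert]
    by_cases hQ : Q 1
    · rw [if_pos ⟨hX, hQ⟩, if_pos ⟨⟨squarefree_one, Or.inl (by norm_num)⟩, hQ⟩,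
        Finset.card_insert_of_notMem (by simp)]
    · rw [if_neg (fun h => hQ h.2), if_neg (fun h => hQ h.2), add_zero]
  · have e3 : X = 0 := by omega
    subst e3
    simp

lemma crit_one : Crit 1 := fun d hd _ _ _ => Nat.dvd_one.1 hd

/-- the counts and the densities -/
theorem density (hD : Pool.Agent.H757_X15.DD.S_DEN) (hC : Pool.Agent.H757_X15.EE.S_CLASS)
    (P : ℕ → Prop) (hP : ∀ D, Adm D → (P D ↔ Crit D)) :
    Tendsto (fun X : ℕ => (count (fun D => Adm D ∧ P D) X : ℝ) / (count Adm X : ℝ)) atTop (𝓝 cc) ∧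
    Tendsto (fun X : ℕ => (count Adm X : ℝ) / X) atTop (𝓝 (5 / (16 * Real.pi ^ 2))) := by
  set A : ℕ → ℝ := fun X => (((Finset.Icc 1 X).filter fun D => Squarefree D ∧
    Pool.Agent.H757_X15.DD.Fm D ∧ Pool.Agent.H757_X15.DD.Crit D).card : ℝ) with hA
  set B : ℕ → ℝ := fun X => (((Finset.Icc 1 X).filter fun D => Squarefree D ∧
    Pool.Agent.H757_X15.DD.Fm D).card : ℝ) with hB
  have hAB : Tendsto (fun X => A X / B X) atTop (𝓝 cc) := hD
  have hBX : Tendsto (fun X : ℕ => B X / X) atTop (𝓝 (5 / (16 * Real.pi ^ 2))) := hC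
  have hX : Tendsto (fun X : ℕ => (X : ℝ)) atTop atTop := tendsto_natCast_atTop_atTop
  have hpos : (0 : ℝ) < 5 / (16 * Real.pi ^ 2) := by positivity
  have hBt : Tendsto B atTop atTop := by
    have h1 : Tendsto (fun X : ℕ => B X / X * X) atTop atTop := hBX.pos_mul_atTop hpos hX
    refine h1.congr' ?_
    filter_upwards [eventually_ge_atTop 1] with X h
    have : (X : ℝ) ≠ 0 := by positivity
    field_simp
  have eA : ∀ X : ℕ, 1 ≤ X → (count (fun D => Adm D ∧ P D) X : ℝ) = A X - 1 := by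
    intro X h
    have e0 : count (fun D => Adm D ∧ P D) X = count (fun D => Adm D ∧ Crit D) X := by
      unfold count
      refine Nat.card_congr (Equiv.subtypeEquivRight fun D => ?_)
      refine and_congr_right fun _ => and_congr_right fun h => hP D h
    have e1 := count_eq Crit X
    rw [if_pos ⟨h, crit_one⟩] at e1
    have e2 : A X = ((count (fun D => Adm D ∧ Crit D) X + 1 : ℕ) : ℝ) := by
      rw [e1]
      have e3 : ((Finset.Icc 1 X).filter fun D => (Squarefree D ∧ (D % 60 = 1 ∨ D % 60 = 49)) ∧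
          Crit D) = (Finset.Icc 1 X).filter fun D => Squarefree D ∧
          Pool.Agent.H757_X15.DD.Fm D ∧ Pool.Agent.H757_X15.DD.Crit D := by
        ext D
        simp only [Finset.mem_filter, and_assoc]
        exact Iff.rfl
      rw [e3]
    rw [e0, e2]
    push_cast
    ring
  have eB : ∀ X : ℕ, 1 ≤ X → (count Adm X : ℝ) = B X - 1 := by
    intro X h
    have e1 := count_eq (fun _ => True) X
    rw [if_pos ⟨h, trivial⟩] at e1
    simp only [and_true] at e1
    have e2 : B X = ((count (fun D => Adm D) X + 1 : ℕ) : ℝ) := by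
      rw [e1]
      have e3 : ((Finset.Icc 1 X).filter fun D => Squarefree D ∧ (D % 60 = 1 ∨ D % 60 = 49)) =
          (Finset.Icc 1 X).filter fun D => Squarefree D ∧ Pool.Agent.H757_X15.DD.Fm D := by
        ext D
        simp only [Finset.mem_filter]
        exact Iff.rfl
      rw [e3]
    rw [e2]
    push_cast
    ring
  have hinv : Tendsto (fun X => (B X)⁻¹) atTop (𝓝 0) := hBt.inv_tendsto_atTop
  refine ⟨?_, ?_⟩
  · have h1 : Tendsto (fun X => (A X / B X - (B X)⁻¹) / (1 - (B X)⁻¹)) atTop (𝓝 ((cc - 0) / (1 - 0))) :=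
      (hAB.sub hinv).div (tendsto_const_nhds.sub hinv) (by norm_num)
    rw [sub_zero, sub_zero, div_one] at h1
    refine h1.congr' ?_
    filter_upwards [eventually_ge_atTop 1, hBt.eventually_gt_atTop 1] with X h h2
    rw [eA X h, eB X h]
    have h3 : B X ≠ 0 := by linarith
    have h4 : B X - 1 ≠ 0 := by linarith
    field_simp
  · have h1 : Tendsto (fun X : ℕ => B X / X - 1 / (X : ℝ)) atTop (𝓝 (5 / (16 * Real.pi ^ 2) - 0)) := by
      refine hBX.sub ?_
      simpa using tendsto_one_div_atTop_nhds_zero_nat (𝕜 := ℝ)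
    rw [sub_zero] at h1
    refine h1.congr' ?_
    filter_upwards [eventually_ge_atTop 1] with X h
    rw [eB X h]
    ring

end proof

/-- **Main theorem.** The statement `Criterion D` holds for all the `D` of the class. The proportion of
the `D` such that `TwoPart (twist D)` holds in the class is exactly `c = 0.2887…`, and the density of the
class in the integers is `5 / (16 π²) = 0.0316…`. -/
theorem result :
    (∀ D : ℕ, Adm D → Criterion D) ∧
    (0.2887 < cc ∧ cc < 0.2888) ∧
    Tendsto (fun X : ℕ => (count (fun D => Adm D ∧ TwoPart (twist D)) X : ℝ) / (count Adm X : ℝ))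
      atTop (𝓝 cc) ∧
    Tendsto (fun X : ℕ => (count Adm X : ℝ) / X) atTop (𝓝 (5 / (16 * Real.pi ^ 2))) := by
  have hc := Pool.Agent.H757_X15.DD.t_LA1.2.2.2
  refine ⟨fun D hD => criterion Pool.Agent.H757_X15.EE.t_FULL hD, hc, ?_⟩
  exact density Pool.Agent.H757_X15.DD.t_DEN Pool.Agent.H757_X15.EE.t_CLASS
    (fun D => TwoPart (twist D))
    fun D hD => Iff.symm (criterion Pool.Agent.H757_X15.EE.t_FULL hD).2.2.2

end Pool.Agent.Results.MP_4a9ea6_nt.TwoPartTwistsX15
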